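import Mathlib
import Pool.Agent.H15.Lin2

namespace Pool.Agent.Results.MP_0e046d_gt.Invariant
open Pool.Agent.H15.TEmb Cardinal

/-- The extent: `ω` plus the supremum of the cardinalities of closed discrete subsets. -/
noncomputable def extent (X : Type) [TopologicalSpace X] : Cardinal :=
  aleph0 + ⨆ D : {D : Set X // IsClosed D ∧ DiscreteTopology D}, Cardinal.mk D.1

/-- `C_p(Y)` linearly embeds in `C_p(X)`. -/
def LinEmb (Y X : Type) [TopologicalSpace Y] [TopologicalSpace X] : Prop :=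
  ∃ T : C(Y, ℝ) →ₗ[ℝ] C(X, ℝ), @Topology.IsEmbedding _ _ (cp Y) (cp X) T

/-- `C_p(X)` and `C_p(Y)` are linearly homeomorphic. -/
def LEquiv (X Y : Type) [TopologicalSpace X] [TopologicalSpace Y] : Prop :=
  ∃ T : C(X, ℝ) ≃ₗ[ℝ] C(Y, ℝ), @Continuous _ _ (cp X) (cp Y) T ∧ @Continuous _ _ (cp Y) (cp X) T.symm

theorem le (X Y : Type) [TopologicalSpace X] [TopologicalSpace Y] [T1Space X] [T1Space Y]
    [NormalSpace Y] (T : C(Y, ℝ) →ₗ[ℝ] C(X, ℝ)) (hT : @Topology.IsInducing _ _ (cp Y) (cp X) T) :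
    extent Y ≤ extent X :=
  add_le_of_le le_self_add le_self_add (ciSup_le' fun D => extent_of_lin T hT le_self_add
    (fun E h1 h2 => le_trans (le_ciSup (f := fun D : {D : Set X // IsClosed D ∧ DiscreteTopology D} =>
      Cardinal.mk D.1) bddAbove_of_small ⟨E, h1, h2.to_subtype⟩) le_add_self) D.2.1 ⟨D.2.2⟩)

theorem ind {X Y : Type} [TopologicalSpace X] [TopologicalSpace Y] (T : C(X, ℝ) ≃ₗ[ℝ] C(Y, ℝ))
    (h1 : @Continuous _ _ (cp X) (cp Y) T) (h2 : @Continuous _ _ (cp Y) (cp X) T.symm) :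
    @Topology.IsInducing _ _ (cp X) (cp Y) T.toLinearMap :=
  @Homeomorph.isInducing _ _ (cp X) (cp Y) (@Homeomorph.mk _ _ (cp X) (cp Y) T.toEquiv h1 h2)

/-- The extent of a normal space `Y` is at most that of `X` when `C_p(Y)` linearly embeds in
`C_p(X)`; in particular l-equivalent normal spaces have the same extent. -/
theorem result : ∀ (X Y : Type) [TopologicalSpace X] [TopologicalSpace Y] [T35Space X] [T35Space Y],
    (NormalSpace Y → LinEmb Y X → extent Y ≤ extent X) ∧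
    (NormalSpace X → NormalSpace Y → LEquiv X Y → extent X = extent Y) := by
  intro X Y _ _ _ _
  refine ⟨fun _ ⟨T, hT⟩ => le X Y T (@Topology.IsEmbedding.isInducing _ _ _ (cp Y) (cp X) hT),
    fun _ _ ⟨T, h1, h2⟩ => le_antisymm (le Y X _ (ind T h1 h2)) (le X Y _ (ind T.symm h2 h1))⟩

end Pool.Agent.Results.MP_0e046d_gt.Invariant
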